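import Mathlib
import Pool.Agent.R78.S3.Mw
import Pool.Agent.R419.CF.Low

/-!
# `y² + y = x³` twisted by the irreducible representations of `Gal(ℚ(∛N, √-3)/ℚ) = S₃`

`N` runs over all cube-free numbers prime to `3`, not `±1` modulo `9`, with exactly one prime factor
`≡ 2` modulo `3`, and `F = ℚ(∛N, √-3)`, a Galois extension of `ℚ` of degree `6` with group `S₃` (the
fields `F` of the class are the Galois closures of the pure cubic fields `ℚ(∛N)`).  The irreducible
representations of `Gal(F/ℚ)` are the trivial one, the sign, and the representation `ρ` of degree two;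
all are self-dual.  `E` is the curve `y² + y = x³`.

* For all `N` of the class the twisted L-function `L(E, ρ, s)` is entire.
* If `N` does not split (a condition on cubic residues between the prime factors of `N`), then
  `L(E, ρ, 1) ≠ 0`, so that the sign of each functional equation is `+1`, and no representation of
  `Gal(F/ℚ)` occurs in `E(F) ⊗ ℂ`.
* This is the case for at least the proportion `∏_{i ≥ 1} (1 - 3^{-i}) - ε` of the `N` up to `X`, for
  every `ε > 0` and every large `X`; the product is greater than `0.56`.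

The local factors.  `E` has good reduction at the primes `p ≠ 3`, and the factor at `p ≠ 3` is
`det (1 - σ_E(Frob) ρ(Frob) p^(-s))⁻¹` on the invariants of the inertia group in `ρ` (this group acts
trivially on the Tate modules of `E`); the determinant over the two eigenvalues of `σ_E(Frob)` is
`det (1 - a_p p^(-s) A + p^(1-2s) A²)`, where `A` is `ρ(Frob)` composed with the projector on the
invariants.  At `3` the factor is `1`: `σ_E ⊗ ρ` is the sum of the representations of the curves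
`y² + N y = x³` and `y² + N² y = x³`, which have additive reduction at `3`.

The arithmetic of the curves `y² + D y = x³` and of `y² + y = x³` over the fields `K(∛D)`,
`K = ℚ(√-3)`, is joint work of about forty agents (`Pool/Agent/Y703/CT`, `Pool/Agent/Y703/CX`,
`Pool/Agent/Y696/CTE`); the extension to all cube-free numbers is by helper419 (`Pool/Agent/R419/CF`,
`Pool/Agent/R419/CE`).  The Artin representation, the dual number `N' = rad(N)³/N` and the
factorization `L(E, ρ, s) = L(E_N, s) L(E_{N'}, s)` are in `Pool/Agent/R78/S3` (helper78).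
-/

set_option autoImplicit false

open scoped Classical

namespace Pool.Agent.Results.MP_775b3b_nt.CubicArtinTwists

open NumberField IsDedekindDomain WeierstrassCurve TensorProduct Module

/-! ### The Galois module -/

section defs

variable {F : Type} [Field F] [NumberField F] {V : Type} [AddCommGroup V] [Module ℂ V]

/-- The equation `y² + y = x³` of `E` over `ℤ`. -/
def base : WeierstrassCurve ℤ := ⟨0, 0, 1, 0, 0⟩

/-- The group `E(F)`. -/
abbrev Pt (F : Type) [Field F] : Type := (base.map (Int.castRingHom F)).toAffine.Point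

/-- The action of an automorphism of `F` on `E(F)`. -/
noncomputable def act (σ : F ≃ₐ[ℚ] F) : Pt F →+ Pt F :=
  Affine.Point.map (W' := base.toAffine) (S := ℤ) (σ : F →+* F).toIntAlgHom

/-- The vector space `V_E = E(F) ⊗ ℂ`. -/
def Space (F : Type) [Field F] : Type := ℂ ⊗[ℤ] Pt F

noncomputable instance (F : Type) [Field F] : AddCommGroup (Space F) :=
  inferInstanceAs (AddCommGroup (ℂ ⊗[ℤ] Pt F))

noncomputable instance (F : Type) [Field F] : Module ℂ (Space F) :=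
  inferInstanceAs (Module ℂ (ℂ ⊗[ℤ] Pt F))

/-- The action of `σ` on `E(F) ⊗ ℂ`. -/
noncomputable def action (σ : F ≃ₐ[ℚ] F) : Space F →ₗ[ℂ] Space F :=
  LinearMap.baseChange ℂ (act σ).toIntLinearMap

/-- `f ∘ ρ(g) = g ∘ f` for all `g` in `G = Gal(F/ℚ)`. -/
def IsEquivariant (ρ : Representation ℂ (F ≃ₐ[ℚ] F) V) (f : V →ₗ[ℂ] Space F) : Prop :=
  ∀ (g : F ≃ₐ[ℚ] F) (v : V), f (ρ g v) = action g (f v)

/-- The space `Hom_G(ρ, V_E)`. -/
def homs (ρ : Representation ℂ (F ≃ₐ[ℚ] F) V) : Submodule ℂ (V →ₗ[ℂ] Space F) where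
  carrier := {f | IsEquivariant ρ f}
  add_mem' := fun {f f'} h h' g v => by
    rw [LinearMap.add_apply, LinearMap.add_apply, map_add, h g v, h' g v]
  zero_mem' := fun g v => by
    rw [LinearMap.zero_apply, LinearMap.zero_apply, map_zero]
  smul_mem' := fun c {f} h g v => by
    rw [LinearMap.smul_apply, LinearMap.smul_apply, map_smul, h g v]

/-- The multiplicity `m_ρ(E)`. -/
noncomputable def multiplicity (ρ : Representation ℂ (F ≃ₐ[ℚ] F) V) : ℕ := finrank ℂ (homs ρ)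

/-- `ρ` is irreducible. -/
def IsIrreducible (ρ : Representation ℂ (F ≃ₐ[ℚ] F) V) : Prop :=
  Nontrivial V ∧ ∀ W : Submodule ℂ V,
    (∀ (g : F ≃ₐ[ℚ] F) (v : V), v ∈ W → ρ g v ∈ W) → W = ⊥ ∨ W = ⊤

/-! ### The twisted L-function -/

/-- `a_p = p + 1 - #E(𝔽_p)`. -/
noncomputable def a (p : ℕ) : ℤ :=
  (p : ℤ) - (Nat.card {q : ZMod p × ZMod p // q.2 ^ 2 + q.2 = q.1 ^ 3} : ℤ)

/-- `g` is in the inertia group of the prime `w`. -/
def InInertia (w : HeightOneSpectrum (𝓞 F)) (g : F ≃ₐ[ℚ] F) : Prop :=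
  ∀ x : 𝓞 F, g • x - x ∈ w.asIdeal

/-- `g` is a Frobenius element at the prime `w` above `p`. -/
def IsFrobenius (p : ℕ) (w : HeightOneSpectrum (𝓞 F)) (g : F ≃ₐ[ℚ] F) : Prop :=
  ∀ x : 𝓞 F, g • x - x ^ p ∈ w.asIdeal

/-- The projector of `V` on the invariants of the inertia group of `w`. -/
noncomputable def projector (ρ : Representation ℂ (F ≃ₐ[ℚ] F) V) (w : HeightOneSpectrum (𝓞 F)) :
    V →ₗ[ℂ] V :=
  ((Finset.univ.filter fun g : F ≃ₐ[ℚ] F => InInertia w g).card : ℂ)⁻¹ •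
    ∑ g ∈ Finset.univ.filter (fun g : F ≃ₐ[ℚ] F => InInertia w g), ρ g

/-- `ρ(φ)` after the projector on the invariants of the inertia group of `w`. -/
noncomputable def frobenius (ρ : Representation ℂ (F ≃ₐ[ℚ] F) V) (w : HeightOneSpectrum (𝓞 F))
    (φ : F ≃ₐ[ℚ] F) : V →ₗ[ℂ] V :=
  ρ φ * projector ρ w

/-- `1 - x A + y A²`. -/
noncomputable def quadratic (A : V →ₗ[ℂ] V) (x y : ℂ) : V →ₗ[ℂ] V :=
  LinearMap.id - x • A + y • (A * A)

/-- The local factor `det (1 - a_p p^(-s) A + p^(1-2s) A²)⁻¹`, where `A` is the projector on the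
invariants of the inertia group of `w` followed by `ρ(φ)`, `φ` a Frobenius element at `w`. -/
noncomputable def factor (ρ : Representation ℂ (F ≃ₐ[ℚ] F) V) (p : ℕ)
    (w : HeightOneSpectrum (𝓞 F)) (φ : F ≃ₐ[ℚ] F) (s : ℂ) : ℂ :=
  (LinearMap.det
    (quadratic (frobenius ρ w φ) ((a p : ℂ) * (p : ℂ) ^ (-s)) ((p : ℂ) ^ (1 - 2 * s))))⁻¹

/-- `c` is the local factor at `p` of the twisted L-function: `1` if `p = 3`, otherwise the value of
`factor` for all the primes `w` above `p` and Frobenius elements `φ` at `w` (and there are such). -/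
def IsLocalFactor (ρ : Representation ℂ (F ≃ₐ[ℚ] F) V) (p : ℕ) (c : ℂ → ℂ) : Prop :=
  (p = 3 → ∀ s, c s = 1) ∧
  (p ≠ 3 → (∃ (w : HeightOneSpectrum (𝓞 F)) (φ : F ≃ₐ[ℚ] F), (p : 𝓞 F) ∈ w.asIdeal ∧
      IsFrobenius p w φ) ∧
    ∀ (w : HeightOneSpectrum (𝓞 F)) (φ : F ≃ₐ[ℚ] F), (p : 𝓞 F) ∈ w.asIdeal →
      IsFrobenius p w φ → ∀ s, c s = factor ρ p w φ s)

/-- `L` is the twisted L-function `L(E, ρ, s)`: it is entire and equal to the product of the local
factors for `Re s > 3/2`. -/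
def IsL (ρ : Representation ℂ (F ≃ₐ[ℚ] F) V) (L : ℂ → ℂ) : Prop :=
  Differentiable ℂ L ∧ ∃ c : Nat.Primes → ℂ → ℂ, (∀ p : Nat.Primes, IsLocalFactor ρ p (c p)) ∧
    ∀ s : ℂ, 3 / 2 < s.re → HasProd (fun p : Nat.Primes => c p s) (L s)

/-- `w` is the sign of a functional equation of `Λ(s) = C^(s/2) ((2π)^(-s) Γ(s))^n L(s)`, for some
positive real number `C`: `Λ(s) = w Λ(2 - s)` in the critical strip. -/
def IsSign (n : ℕ) (L : ℂ → ℂ) (w : ℂ) : Prop :=
  ∃ C : ℝ, 0 < C ∧ ∀ s : ℂ, 0 < s.re → s.re < 2 →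
    (C : ℂ) ^ (s / 2) * ((2 * Real.pi : ℂ) ^ (-s) * Complex.Gamma s) ^ n * L s =
      w * ((C : ℂ) ^ ((2 - s) / 2) *
        ((2 * Real.pi : ℂ) ^ (-(2 - s)) * Complex.Gamma (2 - s)) ^ n * L (2 - s))

/-- The rule of the problem for `E` and `ρ`, with root number `+1` and multiplicity `0`:
`L(E, ρ, s)` is entire and not zero at `1`, so that each sign of a functional equation is `+1`, and
`m_ρ(E) = 0`. -/
def RuleZero (ρ : Representation ℂ (F ≃ₐ[ℚ] F) V) : Prop :=
  multiplicity ρ = 0 ∧ (∃ L : ℂ → ℂ, IsL ρ L) ∧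
    ∀ L : ℂ → ℂ, IsL ρ L → L 1 ≠ 0 ∧ ∀ w : ℂ, IsSign (finrank ℂ V) L w → w = 1

end defs

/-! ### The class -/

/-- `N` is not zero, not divisible by the cube of a prime, not divisible by `3`, not `±1` modulo `9`,
and divisible by exactly one prime that is `2` modulo `3`. -/
def InClass (N : ℕ) : Prop :=
  N ≠ 0 ∧ (∀ p : ℕ, p.Prime → ¬ p ^ 3 ∣ N) ∧ ¬ 3 ∣ N ∧ N % 9 ≠ 1 ∧ N % 9 ≠ 8 ∧
    ∃ q : ℕ, q.Prime ∧ q % 3 = 2 ∧ q ∣ N ∧ ∀ p : ℕ, p.Prime → p ∣ N → p ≠ q → p % 3 = 1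

/-- In every factorization of `N` in coprime factors `d₀ d₁ d₂` for which `d₁ d₂²`, `d₂ d₀²`,
`d₀ d₁²` are cubes modulo the primes dividing `d₀`, `d₁`, `d₂` respectively, two factors are `1`. -/
def HasNoSplitting (N : ℕ) : Prop :=
  ∀ d : ZMod 3 → ℕ, ∏ c, d c = N → (∀ c c', c ≠ c' → Nat.Coprime (d c) (d c')) →
    (∀ (c : ZMod 3) (p : ℕ), p.Prime → p ∣ d c →
      ∃ x : ℤ, (p : ℤ) ∣ (d (c + 1) : ℤ) * (d (c + 2) : ℤ) ^ 2 - x ^ 3) →
    ∃ c, ∀ c', c' ≠ c → d c' = 1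

/-- `F = ℚ(∛N, √-3)`: a Galois extension of `ℚ` of degree `6` that contains a cube root `θ` of
`N`. -/
def IsField (N : ℕ) (F : Type) [Field F] [NumberField F] (θ : F) : Prop :=
  IsGalois ℚ F ∧ finrank ℚ F = 6 ∧ θ ^ 3 = (N : F)

/-- For each field `F = ℚ(∛N, √-3)`: the multiplicity `m_ρ(E)` is `0` for every representation `ρ`
of `Gal(F/ℚ)`, and `RuleZero` holds for every irreducible representation `ρ` of degree `≥ 2`. -/
def Rule (N : ℕ) : Prop :=
  ∀ (F : Type) [Field F] [NumberField F] (θ : F), IsField N F θ →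
    ∀ (V : Type) [AddCommGroup V] [Module ℂ V] [FiniteDimensional ℂ V]
      (ρ : Representation ℂ (F ≃ₐ[ℚ] F) V),
      multiplicity ρ = 0 ∧ (IsIrreducible ρ → 2 ≤ finrank ℂ V → RuleZero ρ)

/-- There is a field `F = ℚ(∛N, √-3)`, and for each one `L(E, ρ, s)` is entire for every irreducible
representation `ρ` of `Gal(F/ℚ)` of degree `≥ 2`. -/
def HasEntireL (N : ℕ) : Prop :=
  (∃ (F : Type) (_ : Field F) (_ : NumberField F) (θ : F), IsField N F θ) ∧
  ∀ (F : Type) [Field F] [NumberField F] (θ : F), IsField N F θ →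
    ∀ (V : Type) [AddCommGroup V] [Module ℂ V] [FiniteDimensional ℂ V]
      (ρ : Representation ℂ (F ≃ₐ[ℚ] F) V), IsIrreducible ρ → 2 ≤ finrank ℂ V →
      ∃ L : ℂ → ℂ, IsL ρ L

/-! ### Proofs -/

open Pool.Agent.R78.S3 (dd P2 tr cnt ef Fld InI exists_gi not_cube ef_bad exists_w exists_fr local_eq
  exists_fld exists_lf fin_pts)

theorem class_iff (N : ℕ) : InClass N ↔ Pool.Agent.Y703.CT.Cls N := by
  unfold InClass Pool.Agent.Y703.CT.Cls Pool.Agent.Y703.CT.Base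
  constructor
  · rintro ⟨h1, h2, h3, h4, h5, h6⟩
    exact ⟨⟨h1, h3, h2⟩, h4, h5, h6⟩
  · rintro ⟨⟨h1, h3, h2⟩, h4, h5, h6⟩
    exact ⟨h1, h2, h3, h4, h5, h6⟩

theorem base_eq (F : Type) [Field F] :
    base.map (Int.castRingHom F) = Pool.Agent.Y696.CTK.ED (1 : F) := by
  unfold base Pool.Agent.Y696.CTK.ED WeierstrassCurve.map
  simp

/-- a finite group becomes trivial after `⊗ ℂ` -/
theorem tensor_zero {A : Type} [AddCommGroup A] [Finite A] (x : ℂ ⊗[ℤ] A) : x = 0 := by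
  induction x using TensorProduct.induction_on with
  | zero => rfl
  | add x y hx hy => rw [hx, hy, add_zero]
  | tmul z a =>
    have hn : (Nat.card A : ℂ) ≠ 0 := Nat.cast_ne_zero.2 Nat.card_pos.ne'
    have h1 : (Nat.card A) • a = 0 := card_nsmul_eq_zero'
    have h2 : z = (Nat.card A : ℤ) • ((Nat.card A : ℂ)⁻¹ * z) := by
      rw [zsmul_eq_mul, Int.cast_natCast, mul_inv_cancel_left₀ hn]
    rw [h2, TensorProduct.smul_tmul, natCast_zsmul, h1, TensorProduct.tmul_zero]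

section proofs

variable {F : Type} [Field F] [NumberField F] {V : Type} [AddCommGroup V] [Module ℂ V]

theorem mult_zero (h : Finite (Pool.Agent.Y696.CTK.ED (1 : F)).toAffine.Point)
    (ρ : Representation ℂ (F ≃ₐ[ℚ] F) V) : multiplicity ρ = 0 := by
  have hf : Finite (Pt F) := by
    unfold Pt
    rw [base_eq]
    exact h
  have hs : Subsingleton (Space F) :=
    ⟨fun x y => (tensor_zero (A := Pt F) x).trans (tensor_zero (A := Pt F) y).symm⟩
  have hs2 : Subsingleton (V →ₗ[ℂ] Space F) := ⟨fun f g => LinearMap.ext fun v => hs.elim _ _⟩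
  unfold multiplicity
  exact Module.finrank_zero_of_subsingleton

theorem factor_eq (ρ : Representation ℂ (F ≃ₐ[ℚ] F) V) (p : ℕ) (w : HeightOneSpectrum (𝓞 F))
    (φ : F ≃ₐ[ℚ] F) (s : ℂ) : factor ρ p w φ s =
      (dd ρ (InI w) φ (tr (1 : ZMod p) * (p : ℂ) ^ (-s)) ((p : ℂ) ^ (1 - 2 * s)))⁻¹ := by
  have e : (a p : ℂ) = tr (1 : ZMod p) := by
    unfold a tr cnt
    simp only [one_mul]
    push_cast
    rfl
  unfold factor dd P2 quadratic
  rw [e]
  rfl

theorem isL_hasProd {N : ℕ} (hN : InClass N) {θ : F} (hF : IsField N F θ) [FiniteDimensional ℂ V]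
    (ρ : Representation ℂ (F ≃ₐ[ℚ] F) V) (hirr : IsIrreducible ρ) (h2 : 2 ≤ finrank ℂ V)
    (p : Nat.Primes) :
    IsLocalFactor ρ p (fun s => ef N p s * ef (Pool.Agent.R78.S3.star N) p s) := by
  have hC := (class_iff N).1 hN
  have hFl : Fld F N θ := ⟨hF.1, hF.2.1, hF.2.2⟩
  obtain ⟨a, t, σ, τ, hG⟩ := exists_gi hFl (not_cube hC)
  refine ⟨fun h3 s => ?_, fun h3 => ⟨?_, ?_⟩⟩
  · have e : ∀ D : ℕ, ef D p s = 1 := fun D => ef_bad p.2 (by rw [h3]; exact Dvd.intro _ rfl) s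
    show ef N p s * ef (Pool.Agent.R78.S3.star N) p s = 1
    rw [e, e, one_mul]
  · obtain ⟨w, hw⟩ := exists_w F p.2
    obtain ⟨g, hg⟩ := exists_fr hF.1 p.2 w hw
    exact ⟨w, g, hw, hg⟩
  · intro w φ hw hφ s
    rw [factor_eq]
    exact local_eq hC hF.1 hG ρ hirr h2 p.2 h3 hw hφ s

/-- the L-function is unique -/
theorem isL_unique {ρ : Representation ℂ (F ≃ₐ[ℚ] F) V} {L M : ℂ → ℂ} (hL : IsL ρ L)
    (hM : IsL ρ M) : L = M := by
  obtain ⟨hL1, c, hc, hL2⟩ := hL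
  obtain ⟨hM1, c', hc', hM2⟩ := hM
  have hcc : c = c' := by
    funext p s
    by_cases h3 : (p : ℕ) = 3
    · rw [(hc p).1 h3, (hc' p).1 h3]
    · obtain ⟨w, φ, hw, hφ⟩ := ((hc p).2 h3).1
      rw [((hc p).2 h3).2 w φ hw hφ s, ((hc' p).2 h3).2 w φ hw hφ s]
  have h1 : AnalyticOnNhd ℂ L Set.univ := fun z _ => hL1.analyticAt z
  have h2 : AnalyticOnNhd ℂ M Set.univ := fun z _ => hM1.analyticAt z
  refine h1.eq_of_eventuallyEq h2 (z₀ := 2) ?_
  have h3 : {s : ℂ | 3 / 2 < s.re} ∈ nhds (2 : ℂ) :=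
    (isOpen_lt continuous_const Complex.continuous_re).mem_nhds (by
      show (3 : ℝ) / 2 < (2 : ℂ).re
      norm_num)
  filter_upwards [h3] with s hs
  have h5 := hL2 s hs
  rw [hcc] at h5
  exact h5.unique (hM2 s hs)

theorem sign_one {n : ℕ} {L : ℂ → ℂ} (h : L 1 ≠ 0) {w : ℂ} (hw : IsSign n L w) : w = 1 := by
  obtain ⟨C, hC, h1⟩ := hw
  have h2 := h1 1 (by norm_num) (by norm_num)
  have e : (2 : ℂ) - 1 = 1 := by norm_num
  rw [e] at h2
  set A := (C : ℂ) ^ ((1 : ℂ) / 2) * ((2 * Real.pi : ℂ) ^ (-(1 : ℂ)) * Complex.Gamma 1) ^ n * L 1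
    with hA
  have h3 : A ≠ 0 := by
    refine mul_ne_zero (mul_ne_zero ?_ (pow_ne_zero _ (mul_ne_zero ?_ ?_))) h
    · have : (C : ℂ) ≠ 0 := by exact_mod_cast hC.ne'
      exact (Complex.cpow_ne_zero_iff.2 (Or.inl this))
    · have : (2 * Real.pi : ℂ) ≠ 0 := by
        have := Real.pi_ne_zero
        exact_mod_cast mul_ne_zero two_ne_zero this
      exact (Complex.cpow_ne_zero_iff.2 (Or.inl this))
    · apply Complex.Gamma_ne_zero_of_re_pos
      norm_num
  have h4 : (w - 1) * A = 0 := by linear_combination -h2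
  exact sub_eq_zero.1 ((mul_eq_zero.1 h4).resolve_right h3)

end proofs

theorem entire_of {N : ℕ} (hN : InClass N) : HasEntireL N := by
  have hC := (class_iff N).1 hN
  constructor
  · obtain ⟨F, i1, i2, θ, h⟩ := exists_fld (not_cube hC)
    exact ⟨F, i1, i2, θ, h.gal, h.deg, h.cube⟩
  · intro F _ _ θ hF V _ _ _ ρ hirr h2
    obtain ⟨L, h1, h3, -⟩ := exists_lf hC
    exact ⟨L, h1, _, isL_hasProd hN hF ρ hirr h2, h3⟩

theorem rule_of {N : ℕ} (hN : InClass N) (hs : HasNoSplitting N) : Rule N := by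
  have hC := (class_iff N).1 hN
  intro F _ _ θ hF V _ _ _ ρ
  have hm := mult_zero (fin_pts ⟨hF.1, hF.2.1, hF.2.2⟩ hC hs) ρ
  refine ⟨hm, fun hirr h2 => ?_⟩
  obtain ⟨L, h1, h3, h4⟩ := exists_lf hC
  have hL : IsL ρ L := ⟨h1, _, isL_hasProd hN hF ρ hirr h2, h3⟩
  refine ⟨hm, ⟨L, hL⟩, fun M hM => ?_⟩
  rw [isL_unique hM hL]
  exact ⟨h4 hs, fun w hw => sign_one (h4 hs) hw⟩

theorem result :
    (∃ c : ℝ, 0 < c ∧ ∃ X₀ : ℕ, ∀ X : ℕ, X₀ ≤ X →
      c * X / Real.sqrt (Real.log X) ≤ (((Finset.Icc 1 X).filter fun N => InClass N).card : ℝ)) ∧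
    (∀ N : ℕ, InClass N → HasEntireL N ∧ (HasNoSplitting N → Rule N)) ∧
    (0.56 : ℝ) < ∏' i : ℕ, (1 - (1 / 3 : ℝ) ^ (i + 1)) ∧
    ∀ ε : ℝ, 0 < ε → ∃ X₀ : ℕ, ∀ X : ℕ, X₀ ≤ X →
      ((∏' i : ℕ, (1 - (1 / 3 : ℝ) ^ (i + 1))) - ε) *
          (((Finset.Icc 1 X).filter fun N => InClass N).card : ℝ) ≤
        (((Finset.Icc 1 X).filter fun N => InClass N ∧ Rule N).card : ℝ) := by
  have e1 : ∀ X : ℕ, (Finset.Icc 1 X).filter (fun N => InClass N) =
      (Finset.Icc 1 X).filter fun N => Pool.Agent.Y703.CT.Cls N := fun X =>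
    Finset.filter_congr fun N _ => class_iff N
  refine ⟨?_, fun N hN => ⟨entire_of hN, rule_of hN⟩, Pool.Agent.Y461.CX.t_C3.2.2.2, ?_⟩
  · simp only [e1]
    exact Pool.Agent.R419.CF.low
  · intro ε hε
    obtain ⟨X₀, h⟩ := (Metric.tendsto_atTop.1 Pool.Agent.R419.CF.t_FIN) ε hε
    refine ⟨X₀, fun X hX => ?_⟩
    have h2 := h X hX
    rw [Real.dist_eq, abs_lt] at h2
    have h3 := h2.1
    rw [e1]
    unfold Pool.Agent.Y703.CX.c3 at h3
    set A := (((Finset.Icc 1 X).filter fun D => Pool.Agent.Y703.CT.Cls D).card : ℝ) with hA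
    set B := (((Finset.Icc 1 X).filter fun D => Pool.Agent.Y703.CT.Cls D ∧
      Pool.Agent.Y703.CT.NoSplit D).card : ℝ) with hB
    have hA0 : 0 ≤ A := Nat.cast_nonneg _
    have h4 : ((∏' i : ℕ, (1 - (1 / 3 : ℝ) ^ (i + 1))) - ε) * A ≤ B := by
      rcases hA0.eq_or_lt with h0 | h0
      · rw [← h0, mul_zero]
        exact Nat.cast_nonneg _
      · rw [← le_div_iff₀ h0]
        linarith
    refine h4.trans ?_
    rw [hB]
    norm_cast
    refine Finset.card_le_card fun N hN => ?_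
    obtain ⟨a1, a3, a4⟩ := Finset.mem_filter.1 hN
    exact Finset.mem_filter.2 ⟨a1, (class_iff N).2 a3, rule_of ((class_iff N).2 a3) a4⟩

end Pool.Agent.Results.MP_775b3b_nt.CubicArtinTwists
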