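import Mathlib
import Pool.Agent.R421.EK.Chr

/-!
# Quadratic characters: bounded multiplicities and the joint Gaussian law of the twists

`E' i A B`, `i = 0, 1, 2`, are the quotients of `y² = x (x - A) (x - B)` by its points of order two.
Let `F` be a finite Galois extension of `ℚ` and `χ_1, …, χ_n` different homomorphisms of its Galois
group to `{±1}`, the characters of `ℚ(√D_l)`, `D_l` squarefree. In every short square of pairs
`(A, B)` (of side `X`, at distance at most `X ^ L` from the origin):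
* for all but a proportion `ε` of the pairs the multiplicities of the `χ_l` in `E' i A B (F) ⊗ ℂ` are
  at most `R(ε)`;
* the `3 n` binary logarithms of the numbers of the elements of order dividing `2 ^ j` of the
  Tate-Shafarevich groups of the twists of `E' i A B` by `χ_l` are asymptotically jointly Gaussian, of
  mean `(3 / 2) log log X`; those of different `i` are independent and those of the same `i` have the
  covariance `(9 / 4) log log X` for `l ≠ l'` and `(5 / 2) log log X` for `l = l'`.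
-/

set_option autoImplicit false

namespace Pool.Agent.Results.MP_775b3b_nt.JointTwistLaw

open Finset WeierstrassCurve ProbabilityTheory

open Pool.Agent.TH841.SH.D (Sha)

/-- the quotient of `y² = x (x - a) (x - b)` by its subgroup generated by `(0, 0)`: the curve
`y² = x³ + 2 (a + b) x² + (a - b)² x` -/
def Q (a b : ℤ) : WeierstrassCurve ℚ := ⟨0, 2 * ((a : ℚ) + b), 0, ((a : ℚ) - b) ^ 2, 0⟩

/-- the quotients of `y² = x (x - A) (x - B)` by the subgroups generated by `(0, 0)`, `(A, 0)`,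
`(B, 0)` -/
def E' (i : Fin 3) (A B : ℤ) : WeierstrassCurve ℚ := ![Q A B, Q (-A) (B - A), Q (-B) (A - B)] i

/-- the quadratic twist by `D` of `W : y² = x³ + a₂ x² + a₄ x + a₆` -/
def twist (D : ℤ) (W : WeierstrassCurve ℚ) : WeierstrassCurve ℚ :=
  ⟨0, (D : ℚ) * W.a₂, 0, (D : ℚ) ^ 2 * W.a₄, (D : ℚ) ^ 3 * W.a₆⟩

open Classical in
/-- The group of the points `P` of `W` over `F` with `σ P = χ(σ) P` for all `σ`. -/
noncomputable def Part (F : Type) [Field F] [NumberField F] (χ : (F ≃ₐ[ℚ] F) →* ℤˣ)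
    (W : WeierstrassCurve ℚ) : AddSubgroup (W.baseChange F).toAffine.Point where
  carrier := {P | ∀ σ : F ≃ₐ[ℚ] F, Affine.Point.map (W' := W.toAffine) (σ : F →ₐ[ℚ] F) P =
    ((χ σ : ℤˣ) : ℤ) • P}
  zero_mem' := fun σ => by rw [map_zero, smul_zero]
  add_mem' := fun {P Q} hP hQ σ => by rw [map_add, hP σ, hQ σ, smul_add]
  neg_mem' := fun {P} hP σ => by rw [map_neg, hP σ, smul_neg]

open Classical in
/-- The multiplicity of `χ` in `W(F) ⊗ ℂ`: the rank of `Part F χ W`. -/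
noncomputable def mult (F : Type) [Field F] [NumberField F] (χ : (F ≃ₐ[ℚ] F) →* ℤˣ)
    (W : WeierstrassCurve ℚ) : ℕ :=
  Module.finrank ℤ (Part F χ W)

/-- the elements of the Tate-Shafarevich group killed by `2 ^ j` -/
def tor (W : WeierstrassCurve ℚ) (j : ℕ) : Set (Sha W) := {x | (2 ^ j) • x = 0}

/-- `log log X` -/
noncomputable def loglog (X : ℕ) : ℝ := Real.log (Real.log X)

/-- the normalised deviation of the binary logarithm of `#Ш(W)[2 ^ j]` -/
noncomputable def dev (X : ℕ) (j : ℕ) (W : WeierstrassCurve ℚ) : ℝ :=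
  (Real.logb 2 (tor W j).ncard - 3 / 2 * loglog X) / √(loglog X)

/-- The joint distribution function of the `3 n` variables `(3 / 2) G_i + (1 / 2) G_{i, l}`, where
`G_i`, `G_{i, l}` are independent standard Gaussian variables: they are jointly Gaussian of mean zero,
those of different `i` are independent, and those of the same `i` have the covariance `9 / 4` for
`l ≠ l'` and `5 / 2` for `l = l'`. -/
noncomputable def G {n : ℕ} (x : Fin 3 → Fin n → ℝ) : ℝ :=
  (stdGaussian (EuclideanSpace ℝ (Fin 3 ⊕ Fin 3 × Fin n))).real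
    {w | ∀ i l, 3 / 2 * w (Sum.inl i) + 1 / 2 * w (Sum.inr (i, l)) ≤ x i l}

/-- the square `(N₁, N₁ + X] × (N₂, N₂ + X]` -/
noncomputable def Square (N₁ N₂ : ℤ) (X : ℕ) : Finset (ℤ × ℤ) :=
  Ioc N₁ (N₁ + (X : ℤ)) ×ˢ Ioc N₂ (N₂ + (X : ℤ))

lemma E'_eq (i : Fin 3) (A B : ℤ) : E' i A B = Pool.Agent.TH841.LS.WI
    (Pool.Agent.Y676.IS.tri i A B).1 (Pool.Agent.Y676.IS.tri i A B).2 := by
  fin_cases i <;> rfl

lemma tri_mul (i : Fin 3) (D A B : ℤ) : Pool.Agent.Y676.IS.tri i (D * A) (D * B) =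
    (D * (Pool.Agent.Y676.IS.tri i A B).1, D * (Pool.Agent.Y676.IS.tri i A B).2) := by
  fin_cases i
  · rfl
  · change (-(D * A), D * B - D * A) = (D * (-A), D * (B - A))
    rw [Prod.mk.injEq]
    constructor <;> ring
  · change (-(D * B), D * A - D * B) = (D * (-B), D * (A - B))
    rw [Prod.mk.injEq]
    constructor <;> ring

lemma twist_eq (i : Fin 3) (D A B : ℤ) : twist D (E' i A B) = Pool.Agent.TH841.LS.WI
    (Pool.Agent.Y676.IS.tri i (D * A) (D * B)).1 (Pool.Agent.Y676.IS.tri i (D * A) (D * B)).2 := by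
  rw [E'_eq, tri_mul]
  generalize Pool.Agent.Y676.IS.tri i A B = p
  apply WeierstrassCurve.ext
  · rfl
  · change (D : ℚ) * (2 * ((p.1 : ℚ) + p.2)) = 2 * (((D * p.1 : ℤ) : ℚ) + ((D * p.2 : ℤ) : ℚ))
    push_cast
    ring
  · rfl
  · change (D : ℚ) ^ 2 * ((p.1 : ℚ) - p.2) ^ 2 = (((D * p.1 : ℤ) : ℚ) - ((D * p.2 : ℤ) : ℚ)) ^ 2
    push_cast
    ring
  · change (D : ℚ) ^ 3 * 0 = 0
    ring

lemma G_eq {n : ℕ} (x : Fin 3 → Fin n → ℝ) :
    (Pool.Agent.R421.EK.muT 3 n).real {w | ∀ k, w k ≤ x k.1 k.2} = G x := by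
  have hm : MeasurableSet {w : EuclideanSpace ℝ (Fin 3 × Fin n) | ∀ k, w k ≤ x k.1 k.2} := by
    have : {w : EuclideanSpace ℝ (Fin 3 × Fin n) | ∀ k, w k ≤ x k.1 k.2} =
        ⋂ k, {w | w k ≤ x k.1 k.2} := by
      ext w
      simp
    rw [this]
    exact MeasurableSet.iInter fun i => (isClosed_le (by fun_prop) continuous_const).measurableSet
  unfold Pool.Agent.R421.EK.muT G
  rw [MeasureTheory.map_measureReal_apply (Pool.Agent.R421.EK.Lm_meas 3 n) hm]
  congr 1
  ext w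
  rw [Set.mem_preimage, Set.mem_ofPred_eq, Set.mem_ofPred_eq]
  constructor
  · intro h i l
    exact h (i, l)
  · intro h k
    exact h k.1 k.2

open Classical in
/-- **Theorem.** Let `F` be a finite Galois extension of `ℚ` and `χ_1, …, χ_n` different
homomorphisms of its Galois group to `{±1}`. There are squarefree integers `D_l` such that `χ_l` is
the character of `ℚ(√D_l)` and for all `L` and `ε > 0`, uniformly in the squares of side `X` at
distance at most `X ^ L` from the origin: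
* there is an `R` such that for `X ≥ X₀`, for all but a proportion `ε` of the pairs `(A, B)` of the
  square the multiplicities of all `χ_l` in the three representations `E' i A B (F) ⊗ ℂ` are at most
  `R`;
* for all `j_{i, l} ≥ 1` and real numbers `x_{i, l}` the proportion of the pairs `(A, B)` for which all
  the groups `Ш(E^{D_l})[2 ^ j_{i, l}]`, `E = E' i A B`, are finite and
  `log₂ #Ш(E^{D_l})[2 ^ j_{i, l}] ≤ (3 / 2) log log X + x_{i, l} √(log log X)` tends to `G x`. -/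
theorem result (F : Type) [Field F] [NumberField F] [IsGalois ℚ F] (n : ℕ)
    (χ : Fin n → ((F ≃ₐ[ℚ] F) →* ℤˣ)) (hχ : Function.Injective χ) :
    ∃ D : Fin n → ℤ, (∀ l, Squarefree (D l) ∧ ∃ s : F, s ^ 2 = (D l : F) ∧
      ∀ σ : F ≃ₐ[ℚ] F, σ s = (((χ l σ : ℤˣ) : ℤ) : F) * s) ∧
    (∀ (L : ℕ) (ε : ℝ), 0 < ε → ∃ R X₀ : ℕ, ∀ (N₁ N₂ : ℤ) (X : ℕ), X₀ ≤ X →
      |N₁| ≤ (X : ℤ) ^ L → |N₂| ≤ (X : ℤ) ^ L →
      (((Square N₁ N₂ X).filter (fun t : ℤ × ℤ =>
        ¬ ∀ i l, mult F (χ l) (E' i t.1 t.2) ≤ R)).card : ℝ) ≤ ε * (X : ℝ) ^ 2) ∧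
    (∀ (L : ℕ) (j : Fin 3 → Fin n → ℕ), (∀ i l, 1 ≤ j i l) → ∀ (x : Fin 3 → Fin n → ℝ) (ε : ℝ),
      0 < ε → ∃ X₀ : ℕ, ∀ (N₁ N₂ : ℤ) (X : ℕ), X₀ ≤ X →
      |N₁| ≤ (X : ℤ) ^ L → |N₂| ≤ (X : ℤ) ^ L →
      |(((Square N₁ N₂ X).filter (fun t : ℤ × ℤ =>
        ∀ i l, (tor (twist (D l) (E' i t.1 t.2)) (j i l)).Finite ∧
          dev X (j i l) (twist (D l) (E' i t.1 t.2)) ≤ x i l)).card : ℝ) / (X : ℝ) ^ 2 - G x| ≤
        ε) := by
  choose D s hD hs hσ using fun l => Pool.Agent.W683.AT.chi F (χ l)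
  have hdd : ∀ l m, l ≠ m → ∀ r : ℤ, r ^ 2 ≠ D l * D m := fun l m hlm r =>
    Pool.Agent.R421.EK.chars_ind F (χ l) (χ m) (fun h => hlm (hχ h)) (D l) (D m) (hD l) (hD m)
      (s l) (s m) (hs l) (hs m) (hσ l) (hσ m) r
  have hab : ∀ (N : ℤ) (X L : ℕ), |N| ≤ (X : ℤ) ^ L → N.natAbs ≤ X ^ L := by
    intro N X L h
    have : (N.natAbs : ℤ) ≤ (X : ℤ) ^ L := by rw [Int.natCast_natAbs]; exact h
    exact_mod_cast this
  refine ⟨D, fun l => ⟨hD l, s l, hs l, hσ l⟩, fun L ε hε => ?_, fun L j hj x ε hε => ?_⟩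
  · obtain ⟨R, X₀, h⟩ := Pool.Agent.R421.EK.tw_main L D (fun l => (hD l).ne_zero) hdd
      (fun _ => 1) (fun _ => le_rfl) (fun _ => 0) ε hε
    refine ⟨R, X₀, fun N₁ N₂ X hX hN₁ hN₂ => ?_⟩
    obtain ⟨T, hT1, hT2, -⟩ := h N₁ N₂ X hX (hab _ _ _ hN₁) (hab _ _ _ hN₂)
    refine le_trans ?_ hT1
    have hsub : (Square N₁ N₂ X).filter (fun t : ℤ × ℤ =>
        ¬ ∀ i l, mult F (χ l) (E' i t.1 t.2) ≤ R) ⊆ T := by
      intro t ht
      rw [mem_filter] at ht
      by_contra hn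
      apply ht.2
      intro i l
      have h1 := hT2 t ht.1 hn (i, l)
      rw [tri_mul] at h1
      rw [E'_eq]
      exact Pool.Agent.R421.EK.mult_le F (χ l) (D l) (s l) (hD l).ne_zero (hs l) (hσ l) h1
    exact_mod_cast card_le_card hsub
  · obtain ⟨R, X₀, h⟩ := Pool.Agent.R421.EK.tw_main L D (fun l => (hD l).ne_zero) hdd
      (fun k => j k.1 k.2) (fun k => hj k.1 k.2) (fun k => x k.1 k.2) ε hε
    refine ⟨X₀, fun N₁ N₂ X hX hN₁ hN₂ => ?_⟩
    obtain ⟨T, -, -, hM⟩ := h N₁ N₂ X hX (hab _ _ _ hN₁) (hab _ _ _ hN₂)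
    rw [← G_eq]
    refine hM _ fun t => ?_
    rw [mem_filter]
    have h1 : ∀ i l, (tor (twist (D l) (E' i t.1 t.2)) (j i l)).Finite ↔
        (Pool.Agent.R421.EK.Tw D (i, l) (j i l) t).Finite := by
      intro i l
      rw [twist_eq]
      rfl
    have h2 : ∀ i l, dev X (j i l) (twist (D l) (E' i t.1 t.2)) =
        Pool.Agent.R421.EK.Lt D (fun k => j k.1 k.2) X t (i, l) := by
      intro i l
      unfold dev
      rw [twist_eq]
      rfl
    constructor
    · rintro ⟨k1, k2⟩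
      exact ⟨k1, fun k => (h1 k.1 k.2).1 (k2 k.1 k.2).1, fun k => by
        have := (k2 k.1 k.2).2
        rw [h2] at this
        exact this⟩
    · rintro ⟨k1, k2, k3⟩
      exact ⟨k1, fun i l => ⟨(h1 i l).2 (k2 (i, l)), by
        rw [h2]
        exact k3 (i, l)⟩⟩

end Pool.Agent.Results.MP_775b3b_nt.JointTwistLaw
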