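import Pool.Agent.R413.MQ.Bin
import Pool.Agent.Results.MP_26073e_nt.FullClassX49

/-!
# The number of the characters of a multiquadratic field with multiplicity zero: the exact limit law

`E_M` is the quadratic twist by `M` of `X_0(49) : y² + x y = x³ - x² - 2 x - 1`, and `D` runs over all
squarefree numbers `D ≥ 1` with all prime factors `≡ 1 mod 4`. Let `F = ℚ(√d_1, …, √d_n)` be of degree
`2ⁿ`, where `M` and the `d_i` are in the class up to squares and up to the factor `-7` (real or not). The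
irreducible representations of `Gal(F/ℚ)` are the `2ⁿ` characters `χ_T`, `T ⊆ {1, …, n}`; all of them are
self-dual.

For a curve `E_{MD}` let `count` be the number of the `T` such that, up to squares and to the factor
`-7`, `M D ∏_{i ∈ T} d_i` is a number `D'` of the class with `E_{D'}(ℚ)` finite and `Ш(E_{D'}/ℚ)[2] = 0`.
For such `T` the multiplicity of `χ_T` in `E_{MD}(F) ⊗ ℂ` is zero, `L(E_{MD}, χ_T, s)` is entire and it
is not zero at `1`; in particular the root number is `+1` and the rule of the minimalist conjecture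
holds. We prove, for `D` ordered by size:
* `count` has exactly the binomial law `B(2ⁿ, c)` in the limit, `c = ∏_{i ≥ 0} (1 - 2^{-(2i+1)})`;
* for every `ε > 0` there is `n₀` such that for all `F` with `n ≥ n₀` and for all but a proportion `ε` of
  the `D ≤ X`, `X ≥ X₀`, at least `(c - ε) 2ⁿ` of the irreducible representations of `Gal(F/ℚ)` do not
  occur in `E_{MD}(F) ⊗ ℂ` and satisfy `L(E_{MD}, χ, 1) ≠ 0`.
-/

set_option autoImplicit false

open NumberField WeierstrassCurve Filter Topology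

namespace Pool.Agent.Results.MP_775b3b_nt.MultiquadraticLaw

open Pool.Agent.Results.MP_4a9ea6_nt.TwoPartTwistsX49 (E)
open Pool.Agent.Results.MP_26073e_nt.FullClassX49 (Adm UpTo AdmUpTo RankZeroShaTwo Good Ind curve ap
  Roots IsSign CutOut IsFrobenius Part mult IsTwist c num equi)

variable {F : Type} [Field F] [NumberField F]

/-- The rule of the minimalist conjecture for `E_M` and `χ` in the case of the multiplicity zero: `χ`
does not occur in `E_M(F) ⊗ ℂ`, and for a curve `E_D` which is up to isogeny the twist of `E_M` by `χ`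
the function `L(E_D, s)`, which is `L(E_M, χ, s)`, is entire and it is not zero at `1`. -/
def RuleZero (M m : ℤ) (χ : (F ≃ₐ[ℚ] F) →* ℂˣ) : Prop :=
  mult χ (curve M) = 0 ∧ M ≠ 0 ∧ m ≠ 0 ∧ ∃ D : ℕ, Adm D ∧ IsTwist M m χ D ∧ ∃ Λ : ℂ → ℂ,
    Differentiable ℂ Λ ∧ (∀ s : ℂ, 2 < s.re → Λ s = (E D).LSeries s) ∧ Λ 1 ≠ 0

/-- the number of the characters of `Gal(F/ℚ)` with the rule in the case of the multiplicity zero -/
noncomputable def zeros (F : Type) [Field F] [NumberField F] (M m : ℤ) : ℕ :=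
  Nat.card {χ : (F ≃ₐ[ℚ] F) →* ℂˣ // RuleZero M m χ}

open Classical in
/-- the number of the `T` such that `M D ∏_{i ∈ T} d_i` is good -/
noncomputable def count {n : ℕ} (d : Fin n → ℤ) (M : ℤ) (D : ℕ) : ℕ :=
  ((Finset.univ : Finset (Finset (Fin n))).filter fun T => Good (M * D * ∏ i ∈ T, d i)).card

section proof

open Pool.Agent.R413.MQ.Bin (cnt N law_eq lln cnt_mono cnt_union)

theorem num_cnt (Q : ℕ → Prop) (X : ℕ) : num Q X = cnt Adm Q X := by
  classical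
  unfold num cnt
  congr 1

theorem count_N {n : ℕ} (d : Fin n → ℤ) (M : ℤ) (D : ℕ) :
    count d M D = N (Finset.univ : Finset (Finset (Fin n)))
      (fun T D => Good (M * D * ∏ i ∈ T, d i)) D := by
  classical
  unfold count N
  congr 1

theorem hc : 0.4194 < c ∧ c < 0.4195 :=
  ⟨Pool.Agent.Y948.CQ.t_C2.2.2.2.1, Pool.Agent.Y948.CQ.t_C2.2.2.2.2⟩

theorem card_univ_n (n : ℕ) : (Finset.univ : Finset (Finset (Fin n))).card = 2 ^ n := by
  rw [Finset.card_univ, Fintype.card_finset, Fintype.card_fin]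

/-- the joint law -/
theorem joint {n : ℕ} {d : Fin n → ℤ} {M : ℤ} (hd : Ind d) (hM : AdmUpTo M) (ha : ∀ i, AdmUpTo (d i)) :
    ∀ V ⊆ (Finset.univ : Finset (Finset (Fin n))), Tendsto (fun X : ℕ =>
      (cnt Adm (fun D => ∀ T ∈ (Finset.univ : Finset (Finset (Fin n))),
        (Good (M * D * ∏ i ∈ T, d i) ↔ T ∈ V)) X : ℝ) / (cnt Adm (fun _ => True) X : ℝ)) atTop
      (𝓝 (c ^ V.card * (1 - c) ^ ((Finset.univ : Finset (Finset (Fin n))).card - V.card))) := by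
  intro V _
  rw [card_univ_n]
  have h := ((Pool.Agent.Results.MP_26073e_nt.FullClassX49.result.2.2.1 n d M hd hM ha V).1)
  refine h.congr fun X => ?_
  rw [num_cnt, num_cnt]
  have e : cnt Adm (fun D => ∀ T, Good (M * D * ∏ i ∈ T, d i) ↔ T ∈ V) X =
      cnt Adm (fun D => ∀ T ∈ (Finset.univ : Finset (Finset (Fin n))),
        (Good (M * D * ∏ i ∈ T, d i) ↔ T ∈ V)) X :=
    Pool.Agent.R413.MQ.Bin.cnt_congr (fun D _ => by simp only [Finset.mem_univ, true_implies]) X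
  rw [e]

theorem rule_of {n : ℕ} {d : Fin n → ℤ} {x : Fin n → F} {M : ℤ} {T : Finset (Fin n)}
    {χ : (F ≃ₐ[ℚ] F) →* ℂˣ} (h0 : ∀ i, d i ≠ 0) (hx : Roots d x) (hT : CutOut x T χ)
    (hz : Good (M * ∏ i ∈ T, d i)) : RuleZero M (∏ i, d i) χ := by
  obtain ⟨h1, h2, D, h3, h4, Λ, h5, h6, h7, h8⟩ := equi h0 hx hT hz
  refine ⟨?_, h1, h2, D, h3, h4, Λ, h5, h6, h7⟩
  rw [(h5.analyticAt 1).analyticOrderAt_eq_zero.2 h7] at h8
  exact_mod_cast h8.symm

/-- the characters are determined by the sets -/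
theorem cut_inj {n : ℕ} {d : Fin n → ℤ} {x : Fin n → F} (h0 : ∀ i, d i ≠ 0) (hx : Roots d x)
    {T : Finset (Fin n)} {χ χ' : (F ≃ₐ[ℚ] F) →* ℂˣ} (h : CutOut x T χ) (h' : CutOut x T χ') :
    χ = χ' := by
  have hr0 : (∏ i ∈ T, x i) ≠ 0 := by
    refine Finset.prod_ne_zero_iff.2 fun i _ h1 => ?_
    have h2 := hx.1 i
    rw [h1, zero_pow two_ne_zero] at h2
    exact h0 i (by exact_mod_cast h2.symm)
  have hne : -(∏ i ∈ T, x i) ≠ ∏ i ∈ T, x i := by
    intro h1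
    have h2 : (2 : F) * ∏ i ∈ T, x i = 0 := by linear_combination -h1
    rcases mul_eq_zero.1 h2 with h3 | h3
    · norm_num at h3
    · exact hr0 h3
  ext σ
  rcases h σ with ⟨e1, e2⟩ | ⟨e1, e2⟩ <;> rcases h' σ with ⟨e3, e4⟩ | ⟨e3, e4⟩
  · rw [e1, e3]
  · exact absurd (e4.symm.trans e2) hne
  · exact absurd (e2.symm.trans e4) hne
  · rw [e1, e3]

theorem count_le {n : ℕ} {d : Fin n → ℤ} {x : Fin n → F} (hd : Ind d) (hx : Roots d x) (M : ℤ)
    (D : ℕ) : count d M D ≤ zeros F (M * D) (∏ i, d i) := by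
  classical
  have hind : ∀ T : Finset (Fin n), T.Nonempty → ¬ IsSquare (∏ i ∈ T, d i) :=
    fun T hT => (hd T hT).1
  have h0 : ∀ i, d i ≠ 0 := Pool.Agent.Y73.QMQ1.d_ne_zero hind
  choose χ hχ using fun T : Finset (Fin n) =>
    (Pool.Agent.R413.MQ.Art.cut_exists (F := F) h0 hx.1 T :
      ∃ χ : (F ≃ₐ[ℚ] F) →* ℂˣ, CutOut x T χ)
  choose τ hτ using fun ψ : (F ≃ₐ[ℚ] F) →* ℂˣ =>
    (Pool.Agent.R413.MQ.Art.cut_unique (F := F) hind hx.1 hx.2 ψ :
      ∃! T : Finset (Fin n), CutOut x T ψ)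
  have hfin : Finite ((F ≃ₐ[ℚ] F) →* ℂˣ) := Finite.of_injective τ fun ψ ψ' he =>
    cut_inj h0 hx (hτ ψ).1 (by rw [he]; exact (hτ ψ').1)
  have hinj : Function.Injective χ := fun T T' he =>
    ((hτ (χ T)).2 T (hχ T)).trans ((hτ (χ T)).2 T' (by
      show CutOut x T' (χ T)
      rw [he]
      exact hχ T')).symm
  have hsub : ∀ T : {T : Finset (Fin n) // Good (M * D * ∏ i ∈ T, d i)},
      RuleZero (M * D) (∏ i, d i) (χ T.1) := fun T => rule_of h0 hx (hχ T.1) T.2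
  have h1 : Nat.card {T : Finset (Fin n) // Good (M * D * ∏ i ∈ T, d i)} ≤
      Nat.card {χ : (F ≃ₐ[ℚ] F) →* ℂˣ // RuleZero (M * D) (∏ i, d i) χ} :=
    Nat.card_le_card_of_injective (fun T => ⟨χ T.1, hsub T⟩) fun T T' he =>
      Subtype.ext (hinj (congrArg Subtype.val he))
  refine le_trans (le_of_eq ?_) h1
  unfold count
  rw [Nat.card_eq_fintype_card, Fintype.card_subtype]

end proof

/-- **The number of the characters with multiplicity zero.** -/
theorem result :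
    (∀ (F : Type) [Field F] [NumberField F] (n : ℕ) (d : Fin n → ℤ) (x : Fin n → F),
      Ind d → Roots d x → IsGalois ℚ F ∧ Module.finrank ℚ F = 2 ^ n ∧
        Nat.card ((F ≃ₐ[ℚ] F) →* ℂˣ) = 2 ^ n ∧
        (∀ T : Finset (Fin n), ∃! χ : (F ≃ₐ[ℚ] F) →* ℂˣ, CutOut x T χ) ∧
        (∀ χ : (F ≃ₐ[ℚ] F) →* ℂˣ, ∃! T : Finset (Fin n), CutOut x T χ) ∧
        ∀ (M : ℤ) (D : ℕ), (∀ T χ, CutOut x T χ → Good (M * D * ∏ i ∈ T, d i) →
            RuleZero (M * D) (∏ i, d i) χ) ∧ count d M D ≤ zeros F (M * D) (∏ i, d i)) ∧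
    (∀ (n : ℕ) (d : Fin n → ℤ) (M : ℤ), Ind d → AdmUpTo M → (∀ i, AdmUpTo (d i)) →
      (∀ k : ℕ, Tendsto (fun X : ℕ => (num (fun D => count d M D = k) X : ℝ) /
        (num (fun _ => True) X : ℝ)) atTop
        (𝓝 (((2 ^ n).choose k : ℝ) * c ^ k * (1 - c) ^ (2 ^ n - k)))) ∧
      (∀ ε δ : ℝ, 0 < ε → 0 < δ → ∃ X₀ : ℕ, ∀ X : ℕ, X₀ ≤ X →
        (num (fun D => ε ≤ |(count d M D : ℝ) / 2 ^ n - c|) X : ℝ) ≤
          (c * (1 - c) / (ε ^ 2 * 2 ^ n) + δ) * (num (fun _ => True) X : ℝ))) ∧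
    (∀ ε : ℝ, 0 < ε → ∃ n₀ : ℕ, ∀ (n : ℕ) (d : Fin n → ℤ) (M : ℤ), n₀ ≤ n →
      Ind d → AdmUpTo M → (∀ i, AdmUpTo (d i)) → ∃ X₀ : ℕ, ∀ X : ℕ, X₀ ≤ X →
        ∀ (F : Type) [Field F] [NumberField F] (x : Fin n → F), Roots d x →
          (1 - ε) * (num (fun _ => True) X : ℝ) ≤
            (num (fun D => (c - ε) * 2 ^ n ≤ (zeros F (M * D) (∏ i, d i) : ℝ)) X : ℝ)) ∧
    0.4194 < c ∧ c < 0.4195 := by
  obtain ⟨hc1, hc2⟩ := hc
  have hcard : ∀ n : ℕ, (((Finset.univ : Finset (Finset (Fin n))).card : ℕ) : ℝ) = 2 ^ n := by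
    intro n
    rw [card_univ_n]
    push_cast
    rfl
  have hL : ∀ (n : ℕ) (d : Fin n → ℤ) (M : ℤ), Ind d → AdmUpTo M → (∀ i, AdmUpTo (d i)) →
      ∀ ε δ : ℝ, 0 < ε → 0 < δ → ∃ X₀ : ℕ, ∀ X : ℕ, X₀ ≤ X →
        (num (fun D => ε ≤ |(count d M D : ℝ) / 2 ^ n - c|) X : ℝ) ≤
          (c * (1 - c) / (ε ^ 2 * 2 ^ n) + δ) * (num (fun _ => True) X : ℝ) := by
    intro n d M hd hM ha ε δ hε hδ
    obtain ⟨X₀, h⟩ := Pool.Agent.R413.MQ.Bin.lln (T := (Finset.univ : Finset (Finset (Fin n))))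
      ⟨∅, Finset.mem_univ _⟩ (by linarith) (by linarith) (joint hd hM ha) hε hδ
    refine ⟨X₀, fun X hX => ?_⟩
    have h1 := h X hX
    rw [hcard] at h1
    simp only [num_cnt, count_N]
    exact h1
  refine ⟨fun F _ _ n d x hd hx => ?_, fun n d M hd hM ha => ⟨fun k => ?_, hL n d M hd hM ha⟩,
    fun ε hε => ?_, hc1, hc2⟩
  · have hind : ∀ T : Finset (Fin n), T.Nonempty → ¬ IsSquare (∏ i ∈ T, d i) :=
      fun T hT => (hd T hT).1
    have h0 : ∀ i, d i ≠ 0 := Pool.Agent.Y73.QMQ1.d_ne_zero hind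
    have h1 : ∀ T : Finset (Fin n), ∃ χ : (F ≃ₐ[ℚ] F) →* ℂˣ, CutOut x T χ := fun T =>
      Pool.Agent.R413.MQ.Art.cut_exists h0 hx.1 T
    have h2 : ∀ χ : (F ≃ₐ[ℚ] F) →* ℂˣ, ∃! T : Finset (Fin n), CutOut x T χ := fun χ =>
      Pool.Agent.R413.MQ.Art.cut_unique hind hx.1 hx.2 χ
    refine ⟨Pool.Agent.Y73.QMQ1.gal_of hx.1 hx.2, Pool.Agent.R413.MQ.finrank_eq hind hx.1 hx.2, ?_,
      fun T => ?_, h2, fun M D => ⟨fun T χ hT hz => rule_of h0 hx hT hz, count_le hd hx M D⟩⟩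
    · choose τ hτ using h2
      have hb : Function.Bijective τ := by
        refine ⟨fun ψ ψ' he => cut_inj h0 hx (hτ ψ).1 (by rw [he]; exact (hτ ψ').1), fun T => ?_⟩
        obtain ⟨χ, hχ⟩ := h1 T
        exact ⟨χ, ((hτ χ).2 T hχ).symm⟩
      rw [Nat.card_congr (Equiv.ofBijective τ hb), Nat.card_eq_fintype_card, Fintype.card_finset,
        Fintype.card_fin]
    · obtain ⟨χ, hχ⟩ := h1 T
      exact ⟨χ, hχ, fun χ' hχ' => cut_inj h0 hx hχ' hχ⟩
  · have h := Pool.Agent.R413.MQ.Bin.law_eq (joint hd hM ha) k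
    rw [card_univ_n] at h
    simp only [num_cnt, count_N]
    exact h
  · obtain ⟨n₀, hn₀⟩ := exists_nat_gt (2 * (c * (1 - c)) / (ε ^ 3))
    refine ⟨n₀, fun n d M hn hd hM ha => ?_⟩
    obtain ⟨X₀, h⟩ := hL n d M hd hM ha ε (ε / 2) hε (by linarith)
    refine ⟨X₀, fun X hX F _ _ x hx => ?_⟩
    have h1 := h X hX
    have hn2 : (n₀ : ℝ) ≤ 2 ^ n := by
      have h3 : n₀ ≤ 2 ^ n := hn.trans Nat.lt_two_pow_self.le
      exact_mod_cast h3
    have h2n : (0 : ℝ) < 2 ^ n := by positivity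
    have h2 : c * (1 - c) / (ε ^ 2 * 2 ^ n) ≤ ε / 2 := by
      have h3 := hn₀.trans_le hn2
      rw [div_lt_iff₀ (by positivity)] at h3
      rw [div_le_iff₀ (by positivity)]
      nlinarith
    have hA : (0 : ℝ) ≤ (num (fun _ => True) X : ℝ) := Nat.cast_nonneg _
    have h4 : (num (fun D => ε ≤ |(count d M D : ℝ) / 2 ^ n - c|) X : ℝ) ≤
        ε * (num (fun _ => True) X : ℝ) :=
      h1.trans (mul_le_mul_of_nonneg_right (by linarith) hA)
    have h5 : (num (fun _ => True) X : ℕ) ≤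
        num (fun D => ε ≤ |(count d M D : ℝ) / 2 ^ n - c|) X +
          num (fun D => (c - ε) * 2 ^ n ≤ (zeros F (M * D) (∏ i, d i) : ℝ)) X := by
      rw [num_cnt, num_cnt, num_cnt]
      refine Pool.Agent.R413.MQ.Bin.cnt_union (fun D hD => ?_) X
      by_cases h6 : ε ≤ |(count d M D : ℝ) / 2 ^ n - c|
      · exact Or.inl h6
      · refine Or.inr ?_
        rw [not_le] at h6
        have h7 := (abs_lt.1 h6).1
        have h8 : (c - ε) * 2 ^ n ≤ (count d M D : ℝ) := by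
          have h9 : c - ε ≤ (count d M D : ℝ) / 2 ^ n := by linarith
          rwa [le_div_iff₀ h2n] at h9
        have h10 : (count d M D : ℝ) ≤ zeros F (M * D) (∏ i, d i) := by
          exact_mod_cast count_le hd hx M D
        exact h8.trans h10
    have h6 : (num (fun _ => True) X : ℝ) ≤
        (num (fun D => ε ≤ |(count d M D : ℝ) / 2 ^ n - c|) X : ℝ) +
          (num (fun D => (c - ε) * 2 ^ n ≤ (zeros F (M * D) (∏ i, d i) : ℝ)) X : ℝ) := by
      exact_mod_cast h5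
    linarith

end Pool.Agent.Results.MP_775b3b_nt.MultiquadraticLaw
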